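import Pool.Agent.Helper89.GW.Stmts

/-!
HAMF: the Hamiltonian flow.
-/

set_option autoImplicit false

open scoped ContDiff Topology
open Set Filter

namespace GW

/-- the linear map which turns a differential into the Hamiltonian vector field -/
noncomputable def hamf_L : (ℝ × E →L[ℝ] ℝ) →L[ℝ] E :=
  ContinuousLinearMap.pi ![ContinuousLinearMap.apply ℝ ℝ ((0 : ℝ), ev 1),
    -ContinuousLinearMap.apply ℝ ℝ ((0 : ℝ), ev 0), ContinuousLinearMap.apply ℝ ℝ ((0 : ℝ), ev 3),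
    -ContinuousLinearMap.apply ℝ ℝ ((0 : ℝ), ev 2)]

theorem hamf_L_apply (l : ℝ × E →L[ℝ] ℝ) :
    hamf_L l = ![l (0, ev 1), -l (0, ev 0), l (0, ev 3), -l (0, ev 2)] := by
  ext i
  fin_cases i <;> simp [hamf_L]

theorem hamf_XH (H : ℝ × E → ℝ) (z : ℝ × E) : XH H z = hamf_L (fderiv ℝ H z) := by
  rw [hamf_L_apply]
  rfl

theorem hamf_dec (v : E) : ((0 : ℝ), v) = v 0 • ((0 : ℝ), ev 0) + v 1 • ((0 : ℝ), ev 1) +
    v 2 • ((0 : ℝ), ev 2) + v 3 • ((0 : ℝ), ev 3) := by
  refine Prod.ext ?_ ?_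
  · simp
  · ext i
    fin_cases i <;> simp [ev]

theorem hamf_om_L (l : ℝ × E →L[ℝ] ℝ) (v : E) : om (hamf_L l) v = l (0, v) := by
  have h1 : l (0, v) = v 0 * l (0, ev 0) + v 1 * l (0, ev 1) + v 2 * l (0, ev 2) +
      v 3 * l (0, ev 3) := by
    conv_lhs => rw [hamf_dec v]
    simp only [map_add, map_smul, smul_eq_mul]
  rw [h1, hamf_L_apply]
  simp [om]
  ring

theorem hamf_om_swap (u v : E) : om u v = -om v u := by
  unfold om
  ring

theorem hamf_om_smul (a : ℝ) (u v : E) : om (a • u) v = a * om u v := by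
  unfold om
  simp
  ring

/-- the time change -/
noncomputable def hamf_g (S : ℝ) (z : ℝ × E) : ℝ × E := (S - (S - 1) * z.1, z.2)

/-- the vector field on `[0,1]` -/
noncomputable def hamf_X (H : ℝ × E → ℝ) (S : ℝ) (z : ℝ × E) : E :=
  (-(S - 1)) • hamf_L (fderiv ℝ H (hamf_g S z))

theorem hamf_X_smooth (H : ℝ × E → ℝ) (S : ℝ) (hH : ContDiff ℝ ∞ H) :
    ContDiff ℝ ∞ (hamf_X H S) := by
  unfold hamf_X
  have h1 : ContDiff ℝ ∞ (fderiv ℝ H) := hH.fderiv_right (by exact_mod_cast le_top)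
  have h2 : ContDiff ℝ ∞ (hamf_g S) := by
    unfold hamf_g
    exact (contDiff_const.sub (contDiff_const.mul contDiff_fst)).prodMk contDiff_snd
  exact (hamf_L.contDiff.comp (h1.comp h2)).const_smul (-(S - 1) : ℝ)

/-- the time change as a homeomorphism -/
noncomputable def hamf_h (S : ℝ) (hS : 1 < S) : (ℝ × E) ≃ₜ (ℝ × E) where
  toFun := hamf_g S
  invFun z := ((S - z.1) / (S - 1), z.2)
  left_inv z := by
    have : S - 1 ≠ 0 := by linarith
    unfold hamf_g
    refine Prod.ext ?_ rfl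
    simp only [sub_sub_cancel]
    field_simp
  right_inv z := by
    have : S - 1 ≠ 0 := by linarith
    unfold hamf_g
    refine Prod.ext ?_ rfl
    simp only
    field_simp
    ring
  continuous_toFun := by
    unfold hamf_g
    fun_prop
  continuous_invFun := by fun_prop

theorem hamf_X_supp (H : ℝ × E → ℝ) (S : ℝ) (hS : 1 < S) (hH : HasCompactSupport H) :
    HasCompactSupport (hamf_X H S) := by
  have h1 : HasCompactSupport (fderiv ℝ H) := hH.fderiv ℝ
  have h2 : HasCompactSupport (fun z => fderiv ℝ H (hamf_h S hS z)) :=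
    h1.comp_homeomorph (hamf_h S hS)
  have h3 := h2.comp_left (g := fun l => (-(S - 1)) • hamf_L l) (by simp)
  exact h3

theorem hamf_X_fderiv (H : ℝ × E → ℝ) (S : ℝ) (hH : ContDiff ℝ ∞ H) (s : ℝ) (y u : E) :
    fderiv ℝ (fun x => hamf_X H S (s, x)) y u =
      (-(S - 1)) • hamf_L (fderiv ℝ (fderiv ℝ H) (hamf_g S (s, y)) (0, u)) := by
  have h1 : ContDiff ℝ ∞ (fderiv ℝ H) := hH.fderiv_right (by exact_mod_cast le_top)
  have h2 : HasFDerivAt (fderiv ℝ H) (fderiv ℝ (fderiv ℝ H) (hamf_g S (s, y)))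
      (hamf_g S (s, y)) :=
    (h1.differentiable (by simp)).differentiableAt.hasFDerivAt
  have h3 : HasFDerivAt (fun x : E => hamf_g S (s, x)) (ContinuousLinearMap.inr ℝ ℝ E) y := by
    unfold hamf_g
    exact (hasFDerivAt_const (𝕜 := ℝ) (S - (S - 1) * s) y).prodMk (hasFDerivAt_id (𝕜 := ℝ) y)
  have h6 : HasFDerivAt (fun x : E => fderiv ℝ H (hamf_g S (s, x)))
      ((fderiv ℝ (fderiv ℝ H) (hamf_g S (s, y))).comp (ContinuousLinearMap.inr ℝ ℝ E)) y :=
    h2.comp y h3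
  have h7 : HasFDerivAt (fun x : E => hamf_L (fderiv ℝ H (hamf_g S (s, x))))
      (hamf_L.comp ((fderiv ℝ (fderiv ℝ H) (hamf_g S (s, y))).comp
        (ContinuousLinearMap.inr ℝ ℝ E))) y :=
    hamf_L.hasFDerivAt.comp y h6
  have h4 := h7.const_smul (-(S - 1) : ℝ)
  have h5 : HasFDerivAt (fun x => hamf_X H S (s, x)) _ y := h4
  rw [h5.fderiv]
  rfl

theorem hamf_key (H : ℝ × E → ℝ) (S : ℝ) (hH : ContDiff ℝ ∞ H) (s : ℝ) (y u v : E) :
    om (fderiv ℝ (fun x => hamf_X H S (s, x)) y u) v +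
      om u (fderiv ℝ (fun x => hamf_X H S (s, x)) y v) = 0 := by
  rw [hamf_om_swap u, hamf_X_fderiv H S hH, hamf_X_fderiv H S hH, hamf_om_smul, hamf_om_smul,
    hamf_om_L, hamf_om_L]
  have h1 : IsSymmSndFDerivAt ℝ H (hamf_g S (s, y)) :=
    (contDiff_infty.1 hH 2).contDiffAt.isSymmSndFDerivAt (by
      simp [minSmoothness_of_isRCLikeNormedField])
  rw [h1.eq (0, u) (0, v)]
  ring

theorem hamf_to (H : ℝ × E → ℝ) (S : ℝ) (hS : 1 < S) (c : ℝ → E) (hc : HSol H S c) :
    Sol (hamf_X H S) (fun τ => c (S - (S - 1) * τ)) := by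
  intro τ hτ
  have hmaps : MapsTo (fun τ : ℝ => S - (S - 1) * τ) (Icc 0 1) (Icc 1 S) := by
    intro t ht
    constructor <;> nlinarith [ht.1, ht.2]
  have h1 := hc (S - (S - 1) * τ) (hmaps hτ)
  have h2 : HasDerivWithinAt (fun τ : ℝ => S - (S - 1) * τ) (-(S - 1)) (Icc 0 1) τ := by
    have := ((hasDerivAt_id τ).const_mul (S - 1)).const_sub S
    simp only [mul_one] at this
    exact this.hasDerivWithinAt
  have h3 := h1.scomp τ h2 hmaps
  rw [hamf_XH] at h3
  exact h3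

theorem hamf_from (H : ℝ × E → ℝ) (S : ℝ) (hS : 1 < S) (d : ℝ → E)
    (hd : Sol (hamf_X H S) d) : HSol H S (fun s => d ((S - s) / (S - 1))) := by
  intro s hs
  have hS0 : 0 < S - 1 := by linarith
  have hmaps : MapsTo (fun s : ℝ => (S - s) / (S - 1)) (Icc 1 S) (Icc 0 1) := by
    intro t ht
    constructor
    · exact div_nonneg (by linarith [ht.2]) hS0.le
    · simp only
      rw [div_le_one hS0]
      linarith [ht.1]
  have h1 := hd ((S - s) / (S - 1)) (hmaps hs)
  have h2 : HasDerivWithinAt (fun s : ℝ => (S - s) / (S - 1)) (-1 / (S - 1)) (Icc 1 S) s := by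
    have := ((hasDerivAt_id s).const_sub S).div_const (S - 1)
    exact this.hasDerivWithinAt
  have h3 := h1.scomp s h2 hmaps
  have h4 : (-1 / (S - 1)) • hamf_X H S ((S - s) / (S - 1), d ((S - s) / (S - 1))) =
      XH H (s, d ((S - s) / (S - 1))) := by
    rw [hamf_XH]
    unfold hamf_X hamf_g
    rw [smul_smul]
    have e1 : -1 / (S - 1) * -(S - 1) = 1 := by field_simp
    have e2 : S - (S - 1) * ((S - s) / (S - 1)) = s := by field_simp; ring
    simp only [e2]
    rw [e1, one_smul]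
  rw [h4] at h3
  exact h3

theorem hamf_om_deriv (a b : ℝ → E) (a' b' : E) (I : Set ℝ) (s : ℝ)
    (ha : HasDerivWithinAt a a' I s) (hb : HasDerivWithinAt b b' I s) :
    HasDerivWithinAt (fun s => om (a s) (b s)) (om a' (b s) + om (a s) b') I s := by
  rw [hasDerivWithinAt_pi] at ha hb
  unfold om
  have h := ((((ha 0).mul (hb 1)).sub ((ha 1).mul (hb 0))).add ((ha 2).mul (hb 3))).sub
    ((ha 3).mul (hb 2))
  refine HasDerivWithinAt.congr_deriv h ?_
  ring

theorem st_HAMF (hU : ST_UNIQ) (hB : ST_BDD) (hD : ST_DIFF) (hC : ST_CINF) : ST_HAMF := by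
  intro H S hS hH hHc
  rcases hS.eq_or_lt with rfl | hS
  · refine ⟨id, contDiff_id, ?_, Function.injective_id, fun c _ => rfl, ?_, fun c d _ _ h => h⟩
    · intro x u v
      simp
    · intro q
      refine ⟨fun _ => q, ?_, rfl⟩
      intro s hs
      rw [Icc_self] at hs ⊢
      rw [mem_singleton_iff] at hs
      rw [hs]
      exact HasFDerivWithinAt.singleton
  have hX := hamf_X_smooth H S hH
  have hXc := hamf_X_supp H S hS hHc
  choose c hc0 hc1 using hB E (hamf_X H S) hX hXc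
  set φ : ℝ → E → E := fun s q => c q s with hφ
  have hφ0 : ∀ q, φ 0 q = q := fun q => hc0 q
  have hφ1 : ∀ q, Sol (hamf_X H S) (fun s => φ s q) := fun q => hc1 q
  have h01 : (1 : ℝ) ∈ Icc (0 : ℝ) 1 := ⟨zero_le_one, le_rfl⟩
  have h00 : (0 : ℝ) ∈ Icc (0 : ℝ) 1 := ⟨le_rfl, zero_le_one⟩
  refine ⟨φ 1, hC E (hamf_X H S) φ hX hφ0 hφ1 1 h01, ?_, ?_, ?_, ?_, ?_⟩
  · obtain ⟨A, hA1, hA0, hA2⟩ := hD E (hamf_X H S) φ hX hφ0 hφ1
    intro x u v
    rw [(hA1 1 h01 x).fderiv]
    have hder : ∀ s ∈ Icc (0 : ℝ) 1, HasDerivWithinAt (fun s => om (A s x u) (A s x v)) 0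
        (Icc 0 1) s := by
      intro s hs
      have h1 := hA2 x s hs
      have h2 := h1.clm_apply (hasDerivWithinAt_const s (Icc (0 : ℝ) 1) u)
      have h3 := h1.clm_apply (hasDerivWithinAt_const s (Icc (0 : ℝ) 1) v)
      have h4 := hamf_om_deriv _ _ _ _ _ _ h2 h3
      refine HasDerivWithinAt.congr_deriv h4 ?_
      simp only [ContinuousLinearMap.comp_apply, map_zero, add_zero]
      exact hamf_key H S hH s (φ s x) (A s x u) (A s x v)
    have h5 := constant_of_derivWithin_zero (f := fun s => om (A s x u) (A s x v))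
      (a := 0) (b := 1) (fun s hs => (hder s hs).differentiableWithinAt) (fun s hs => by
        have hs' : s ∈ Icc (0 : ℝ) 1 := ⟨hs.1, hs.2.le⟩
        exact (hder s hs').derivWithin (uniqueDiffOn_Icc zero_lt_one s hs')) 1 h01
    rw [h5, hA0 x]
    rfl
  · intro q q' hqq
    have h1 := (hU E (hamf_X H S) hX _ _ (hφ1 q) (hφ1 q')).2 hqq 0 h00
    rwa [hφ0, hφ0] at h1
  · intro d hd
    have h1 := hamf_to H S hS d hd
    have h2 := (hU E (hamf_X H S) hX _ _ (hφ1 (d S)) h1).1 (by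
      simp only [mul_zero, sub_zero]
      exact hφ0 (d S)) 1 h01
    rw [h2]
    congr 1
    ring
  · intro q
    refine ⟨_, hamf_from H S hS _ (hφ1 q), ?_⟩
    simp only [sub_self, zero_div]
    exact hφ0 q
  · intro d e hd he hde
    have h1 := hamf_to H S hS d hd
    have h2 := hamf_to H S hS e he
    have h3 := (hU E (hamf_X H S) hX _ _ h1 h2).2 (by
      have : S - (S - 1) * 1 = 1 := by ring
      simp only [this]
      exact hde) 0 h00
    simpa using h3

end GW
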