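import Pool.Agent.Helper89.GW.Stmts

/-!
LAM: the mollified hat function.
-/

set_option autoImplicit false

open scoped ContDiff Topology
open Set Filter

namespace GW

theorem lam_MM_deriv (h : ST_MU) (x : ℝ) : HasDerivAt MM (mu x) x := by
  have hc : Continuous mu := h.1.continuous
  exact intervalIntegral.integral_hasDerivAt_right (hc.intervalIntegrable _ _)
    (hc.stronglyMeasurableAtFilter _ _) hc.continuousAt

theorem lam_MM_smooth (h : ST_MU) : ContDiff ℝ ∞ MM := by
  rw [contDiff_infty_iff_deriv]
  refine ⟨fun x => (lam_MM_deriv h x).differentiableAt, ?_⟩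
  have : deriv MM = mu := by
    funext x
    exact (lam_MM_deriv h x).deriv
  rw [this]
  exact h.1

theorem lam_MM_zero (h : ST_MU) (x : ℝ) (hx : x ≤ -1 / 4) : MM x = 0 := by
  unfold MM
  have h1 : ∫ y in (-1 : ℝ)..x, mu y = ∫ y in (-1 : ℝ)..x, (0 : ℝ) := by
    refine intervalIntegral.integral_congr fun y hy => ?_
    refine h.2.1 y ?_
    have := hy.2
    have h2 : max (-1 : ℝ) x ≤ -1 / 4 := max_le (by norm_num) hx
    exact this.trans h2
  rw [h1]
  simp

theorem lam_MM_sym (h : ST_MU) (x : ℝ) : MM x - MM (-x) = x := by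
  have h1 : ∀ y, HasDerivAt (fun y => MM y - MM (-y) - y) 0 y := by
    intro y
    have h2 := lam_MM_deriv h y
    have h3 := (lam_MM_deriv h (-y)).comp y (hasDerivAt_neg y)
    have h4 := (h2.sub h3).sub (hasDerivAt_id y)
    have h5 : mu y - mu (-y) * -1 - 1 = 0 := by
      have := h.2.2.2.2.2.1 y
      linarith
    rw [h5] at h4
    exact h4
  have h6 : ∀ y, (fun y => MM y - MM (-y) - y) y = (fun y => MM y - MM (-y) - y) 0 :=
    fun y => is_const_of_deriv_eq_zero (fun z => (h1 z).differentiableAt)
      (fun z => (h1 z).deriv) y 0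
  have h7 := h6 x
  simp only [neg_zero, sub_self, sub_zero] at h7
  linarith

theorem lam_MM_id (h : ST_MU) (x : ℝ) (hx : 1 / 4 ≤ x) : MM x = x := by
  have h1 := lam_MM_sym h x
  have h2 := lam_MM_zero h (-x) (by linarith)
  linarith

theorem lam_MM_mono (h : ST_MU) : Monotone MM := by
  refine monotone_of_deriv_nonneg (fun x => (lam_MM_deriv h x).differentiableAt) fun x => ?_
  rw [(lam_MM_deriv h x).deriv]
  exact (h.2.2.2.2.1 x).1

theorem lam_MM_pos (h : ST_MU) (x : ℝ) (hx : -1 / 4 < x) : 0 < MM x := by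
  have h1 : StrictMonoOn MM (Icc (-1 / 4) x) := by
    refine strictMonoOn_of_deriv_pos (convex_Icc _ _) (fun y _ =>
      (lam_MM_deriv h y).continuousAt.continuousWithinAt) fun y hy => ?_
    rw [interior_Icc] at hy
    rw [(lam_MM_deriv h y).deriv]
    by_cases hy2 : 1 / 4 ≤ y
    · rw [h.2.2.1 y hy2]
      norm_num
    · refine (h.2.2.2.1 y ?_).1
      rw [abs_lt]
      constructor <;> linarith [hy.1]
  have h2 := h1 ⟨le_rfl, hx.le⟩ ⟨hx.le, le_rfl⟩ hx
  rwa [lam_MM_zero h _ le_rfl] at h2

theorem lam_even (h : ST_MU) (x : ℝ) : Lam (-x) = Lam x := by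
  unfold Lam
  have h1 := lam_MM_sym h (x - 1)
  have h2 := lam_MM_sym h x
  have h3 := lam_MM_sym h (x + 1)
  have e1 : -(x - 1) = -x + 1 := by ring
  have e2 : -(x + 1) = -x - 1 := by ring
  rw [e1] at h1
  rw [e2] at h3
  linarith

theorem st_LAM (h : ST_MU) : ST_LAM := by
  have hz := h.2.1
  have ho := h.2.2.1
  have hs := h.2.2.2.1
  have hb := h.2.2.2.2.1
  -- values of the hat function for nonnegative arguments
  have v1 : ∀ x, 0 ≤ x → x < 1 / 4 → 1 / 4 ≤ Lam x := by
    intro x h0 h1
    have e1 := lam_MM_id h (x + 1) (by linarith)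
    have e2 := lam_MM_zero h (x - 1) (by linarith)
    have e3 := lam_MM_mono h h1.le
    rw [lam_MM_id h _ le_rfl] at e3
    unfold Lam
    linarith
  have v2 : ∀ x, 1 / 4 ≤ x → x ≤ 3 / 4 → Lam x = 1 - x := by
    intro x h0 h1
    have e1 := lam_MM_id h (x + 1) (by linarith)
    have e2 := lam_MM_zero h (x - 1) (by linarith)
    have e3 := lam_MM_id h x h0
    unfold Lam
    linarith
  have v3 : ∀ x, 3 / 4 < x → x < 5 / 4 → 0 < Lam x := by
    intro x h0 h1
    have e1 := lam_MM_id h (x + 1) (by linarith)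
    have e3 := lam_MM_id h x (by linarith)
    have e4 := lam_MM_sym h (x - 1)
    have e5 := lam_MM_pos h (-(x - 1)) (by linarith)
    unfold Lam
    linarith
  have v4 : ∀ x, 5 / 4 ≤ x → Lam x = 0 := by
    intro x h0
    have e1 := lam_MM_id h (x + 1) (by linarith)
    have e2 := lam_MM_id h (x - 1) (by linarith)
    have e3 := lam_MM_id h x (by linarith)
    unfold Lam
    linarith
  have habs : ∀ x, Lam x = Lam |x| := by
    intro x
    rcases abs_cases x with ⟨hx, _⟩ | ⟨hx, _⟩
    · rw [hx]
    · rw [hx, lam_even h]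
  have w0 : ∀ x, 0 ≤ x → (0 < Lam x ↔ x < 5 / 4) := by
    intro x h0
    constructor
    · intro h1
      by_contra h2
      rw [not_lt] at h2
      rw [v4 x h2] at h1
      exact lt_irrefl _ h1
    · intro h1
      by_cases h2 : x < 1 / 4
      · linarith [v1 x h0 h2]
      · rw [not_lt] at h2
        by_cases h3 : x ≤ 3 / 4
        · rw [v2 x h2 h3]
          linarith
        · rw [not_le] at h3
          exact v3 x h3 h1
  refine ⟨?_, ?_, ?_, ?_, ?_, ?_, ?_, lam_even h, ?_, ?_, ?_, ?_⟩
  · have hM := lam_MM_smooth h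
    exact ((hM.comp (contDiff_id.add contDiff_const)).sub (contDiff_const.mul hM)).add
      (hM.comp (contDiff_id.sub contDiff_const))
  · exact h.1.sub (h.1.comp (contDiff_id.sub contDiff_const))
  · intro x
    have h1 : HasDerivAt (fun y => MM (y + 1)) (mu (x + 1)) x :=
      (lam_MM_deriv h (x + 1)).comp_add_const x 1
    have h2 := (lam_MM_deriv h x).const_mul 2
    have h3 : HasDerivAt (fun y => MM (y - 1)) (mu (x - 1)) x :=
      (lam_MM_deriv h (x - 1)).comp_sub_const x 1
    have h4 := (h1.sub h2).add h3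
    have h5 : mu (x + 1) - 2 * mu x + mu (x - 1) = Bx (x + 1) - Bx x := by
      unfold Bx
      rw [add_sub_cancel_right]
      ring
    rw [h5] at h4
    exact h4
  · intro x
    unfold Bx
    by_cases hx : 1 / 4 ≤ x
    · rw [ho x hx]
      linarith [(hb (x - 1)).2]
    · rw [not_le] at hx
      rw [hz (x - 1) (by linarith)]
      linarith [(hb x).1]
  · intro x
    rw [habs]
    by_cases hx : |x| < 5 / 4
    · exact ((w0 |x| (abs_nonneg x)).2 hx).le
    · rw [not_lt] at hx
      rw [v4 _ hx]
  · intro x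
    unfold Bx
    constructor
    · intro h1
      constructor
      · by_contra h2
        rw [not_lt] at h2
        rw [hz x (by linarith), hz (x - 1) (by linarith)] at h1
        linarith
      · by_contra h2
        rw [not_lt] at h2
        rw [ho x (by linarith), ho (x - 1) (by linarith)] at h1
        linarith
    · rintro ⟨h1, h2⟩
      by_cases h3 : x < 1 / 4
      · rw [hz (x - 1) (by linarith)]
        have := (hs x (by rw [abs_lt]; constructor <;> linarith)).1
        linarith
      · rw [not_lt] at h3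
        rw [ho x h3]
        by_cases h4 : x ≤ 3 / 4
        · rw [hz (x - 1) (by linarith)]
          norm_num
        · rw [not_le] at h4
          have := (hs (x - 1) (by rw [abs_lt]; constructor <;> linarith)).2
          linarith
  · intro x
    rw [habs]
    exact w0 _ (abs_nonneg x)
  · intro x h1 h2
    rw [habs]
    exact v2 _ h1 h2
  · intro x h1
    rw [habs]
    by_cases h2 : |x| < 1 / 4
    · exact v1 _ (abs_nonneg x) h2
    · rw [not_lt] at h2
      rw [v2 _ h2 h1]
      linarith
  · intro x h1 h2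
    have e1 := lam_MM_id h (x + 3) (by linarith)
    have e2 := lam_MM_id h (x + 2) (by linarith)
    have e3 := lam_MM_zero h (x - 1) (by linarith)
    have e4 := lam_MM_zero h (x - 2) (by linarith)
    unfold Lam
    have a1 : x + 2 + 1 = x + 3 := by ring
    have a2 : x + 2 - 1 = x + 1 := by ring
    have a3 : x + 1 + 1 = x + 2 := by ring
    have a4 : x + 1 - 1 = x := by ring
    have a5 : x - 1 + 1 = x := by ring
    have a6 : x - 1 - 1 = x - 2 := by ring
    rw [a1, a2, a3, a4, a5, a6]
    linarith
  · intro x h1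
    rw [abs_le] at h1
    unfold Bx
    rw [add_sub_cancel_right, ho (x + 1) (by linarith [h1.1]), hz (x - 1) (by linarith [h1.2])]
    exact ⟨rfl, sub_zero _⟩

end GW
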